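import Pool.Agent.KS6_14.TP.Pol

set_option autoImplicit false

/-!
# MP_833c47_lc: the global domination number of two edge-disjoint Hamiltonian paths is hard to
approximate
-/

namespace Pool.Agent.Results.MP_833c47_lc.NoPTAS

open Pool.Agent.NPC Pool.Agent.H641R2.GlobDom Pool.Agent.KS6_14.TP
open Pool.Agent.H243R3.TP (Clause numSat occ)
open Pool.Agent.H243R3.PCP (Bd unsat)
open Pool.Agent.R550.HS (bE mem_bE bE_upper bE_lower poly_bE)

/-- A number `n` and two lists, the sequences of vertices of two paths. -/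
abbrev Paths : Type := ℕ × (List ℕ × List ℕ)

/-- The two lists are edge-disjoint Hamiltonian paths on `{0, ..., n-1}`, `n ≥ 1`. -/
def Valid (x : Paths) : Prop :=
  0 < x.1 ∧ x.2.1.Perm (List.range x.1) ∧ x.2.2.Perm (List.range x.1) ∧
    Disjoint (pathGraph x.2.1).edgeSet (pathGraph x.2.2).edgeSet

/-- The global domination number of the factoring into the two paths. -/
noncomputable def gamma (x : Paths) : ℕ := globalDominationNumber x.1 [x.2.1, x.2.2]

/-- There is a polynomial-time algorithm which, given two edge-disjoint Hamiltonian paths, finds a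
number `s` with `γ_g ≤ s ≤ ρ * γ_g`. -/
def Approx (ρ : ℝ) : Prop :=
  ∃ A : List Bool → List Bool, PolyTime A ∧ ∀ x : Paths, Valid x →
    ∃ s : ℕ, A (bits x) = bits s ∧ gamma x ≤ s ∧ (s : ℝ) ≤ ρ * gamma x

/-- the constant relating the sizes -/
def C1 : ℕ := 62 + 114 * (3 + Bd)

theorem hEdge (φ : List Clause) :
    ∀ e ∈ bE φ, e.1 < 3 * φ.length ∧ e.2 < 3 * φ.length ∧ e.1 ≠ e.2 := by
  intro e he
  rw [mem_bE] at he
  exact ⟨he.1, he.2.1, he.2.2.ne⟩

/-- the threshold -/
def thr (φ : List Clause) : ℕ :=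
  6 * (KK (bE φ) (3 * φ.length) + 1) + tot (bE φ) (3 * φ.length) + 2 * φ.length

theorem thr_le {φ : List Clause} (h1 : φ ≠ []) (hB : ∀ x, (occ φ).count x ≤ Bd) :
    thr φ ≤ C1 * φ.length := by
  have h2 := tot_le (hEdge φ)
  have h3 := KK_le (hEdge φ)
  have h4 := bE_length_le hB
  have h5 : 0 < φ.length := List.length_pos_of_ne_nil h1
  have h6 : C1 * φ.length = 62 * φ.length + 38 * (3 * φ.length * (3 + Bd)) := by
    unfold C1
    ring
  rw [h6]
  unfold thr
  omega

theorem valid_mk (φ : List Clause) : Valid (mk (bE φ) (3 * φ.length)) := by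
  have hS := segs (hEdge φ)
  refine ⟨?_, hS.perm1, hS.perm2, hS.edges⟩
  unfold mk num join
  simp [c1]

theorem gap : ∃ c : ℕ, 0 < c ∧ ∀ {L : Set (List Bool)}, InNP L →
    ∃ f : List Bool → Paths × ℕ, Poly f ∧ ∀ z, Valid (f z).1 ∧
      (z ∈ L → gamma (f z).1 ≤ (f z).2) ∧
      (z ∉ L → (1 + 1 / (c : ℝ)) * (f z).2 < gamma (f z).1) := by
  have hK : 0 < DP.K0 := by
    unfold DP.K0 Pool.Agent.H243R3.PCP.c1
    norm_num
  have hC : 0 < C1 := by unfold C1; omega
  have hKr : (0 : ℝ) < DP.K0 := by exact_mod_cast hK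
  have hCr : (0 : ℝ) < C1 := by exact_mod_cast hC
  refine ⟨2 * (C1 * DP.K0), by positivity, fun {L} hL => ?_⟩
  obtain ⟨V, p, hV, hVL⟩ := hL
  obtain ⟨red, ext, hr1, _, hr3⟩ := DP.pcp hV p
  have hN : UPoly (fun z => 3 * (red z).length) := UPoly.mul (UPoly.const 3) (UPoly.length hr1)
  have hEp : Poly (fun z => bE (red z)) := poly_bE.comp hr1
  refine ⟨fun z => (mk (bE (red z)) (3 * (red z).length), thr (red z)), ?_, fun z => ?_⟩
  · refine Poly.pair (poly_mk hEp hN) ?_
    unfold thr
    have h1 : Poly (fun z => KK (bE (red z)) (3 * (red z).length)) := (uPoly_KK hEp hN).toPoly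
    have h2 : Poly (fun z => tot (bE (red z)) (3 * (red z).length)) := poly_tot hEp hN
    exact Poly.add (Poly.add (Poly.mul (NPC.Poly.const 6) (Poly.add h1 (NPC.Poly.const 1))) h2)
      (Poly.mul (NPC.Poly.const 2) (Poly.length hr1))
  obtain ⟨⟨a1, aB⟩, a3, a4⟩ := hr3 z
  have hiff := gamma_iff (hEdge (red z))
  refine ⟨valid_mk _, fun hz => ?_, fun hz => ?_⟩
  · obtain ⟨A, _, hA⟩ := a3 ((hVL z).1 hz)
    have h1 := Pool.Agent.H243R3.PCP.unsat_add (red z) A
    have h2 : numSat (red z) A = (red z).length := by omega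
    obtain ⟨X, hX, hXc⟩ := bE_upper h2
    exact (hiff (2 * (red z).length)).2 ⟨X, hX, hXc⟩
  · obtain ⟨r, hr⟩ : ∃ r, r = ((red z).length + DP.K0 - 1) / DP.K0 := ⟨_, rfl⟩
    have hlen : 0 < (red z).length := List.length_pos_of_ne_nil a1
    have hr1 : (red z).length ≤ DP.K0 * r := by
      rw [hr]
      have := Nat.lt_mul_div_succ ((red z).length + DP.K0 - 1) hK
      rw [Nat.mul_add] at this
      omega
    have hr2 : ∀ u, (red z).length ≤ DP.K0 * u → r ≤ u := by
      intro u hu
      rw [hr]
      apply Nat.le_of_lt_succ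
      rw [Nat.div_lt_iff_lt_mul hK]
      have : (u + 1) * DP.K0 = DP.K0 * u + DP.K0 := by ring
      rw [Nat.succ_eq_add_one, this]
      omega
    have hr0 : 0 < r := by
      rcases Nat.eq_zero_or_pos r with h | h
      · rw [h, Nat.mul_zero] at hr1
        omega
      · exact h
    have h1 : ∀ A, numSat (red z) A + r ≤ (red z).length := by
      intro A
      have h2 := Pool.Agent.H243R3.PCP.unsat_add (red z) A
      have h3 : (red z).length ≤ DP.K0 * unsat (red z) A := by
        by_contra hc2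
        push Not at hc2
        apply hz
        rw [hVL z]
        exact ⟨_, (a4 A hc2).1, (a4 A hc2).2⟩
      have h4 := hr2 _ h3
      omega
    have h2 : thr (red z) + r ≤ gamma (mk (bE (red z)) (3 * (red z).length)) := by
      by_contra hcon
      push Not at hcon
      obtain ⟨X, hX, hXc⟩ := (hiff (2 * (red z).length + r - 1)).1 (by
        unfold thr gamma mk at hcon
        simp only at hcon
        omega)
      have := bE_lower h1 X hX
      omega
    have h3 := thr_le a1 aB
    have h4 : (thr (red z) : ℝ) ≤ C1 * (red z).length := by exact_mod_cast h3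
    have h5 : ((red z).length : ℝ) ≤ DP.K0 * r := by exact_mod_cast hr1
    have h6 : ((thr (red z) : ℕ) : ℝ) + r ≤ gamma (mk (bE (red z)) (3 * (red z).length)) := by
      exact_mod_cast h2
    have h7 : (0 : ℝ) < r := by exact_mod_cast hr0
    change (1 + 1 / ((2 * (C1 * DP.K0) : ℕ) : ℝ)) * (thr (red z) : ℝ) < _
    refine lt_of_lt_of_le ?_ h6
    push_cast
    have h8 : (thr (red z) : ℝ) ≤ (C1 * DP.K0) * r := by
      calc (thr (red z) : ℝ) ≤ C1 * (red z).length := h4
        _ ≤ C1 * (DP.K0 * r) := mul_le_mul_of_nonneg_left h5 hCr.le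
        _ = (C1 * DP.K0) * r := by ring
    have h9 : 1 / (2 * (C1 * DP.K0)) * (thr (red z) : ℝ) ≤ r / 2 := by
      rw [div_mul_eq_mul_div, one_mul, div_le_iff₀ (by positivity)]
      linarith
    linarith

/-- **No PTAS for the global domination number of two edge-disjoint Hamiltonian paths unless
`P = NP`.** There is an `ε > 0` such that every language of `NP` reduces in polynomial time to telling
the pairs of edge-disjoint Hamiltonian paths with `γ_g ≤ M` from those with `γ_g > (1 + ε) M`; and if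
there is a polynomial-time algorithm which approximates `γ_g` within the factor `1 + ε`, then
`P = NP`. -/
theorem result : ∃ ε : ℝ, 0 < ε ∧
    (∀ L : Set (List Bool), InNP L → ∃ R : List Bool → List Bool, PolyTime R ∧
      ∀ z, ∃ (x : Paths) (M : ℕ), R z = bits (x, M) ∧ Valid x ∧ (z ∈ L → gamma x ≤ M) ∧
        (z ∉ L → (1 + ε) * M < gamma x)) ∧
    (Approx (1 + ε) → ∀ L : Set (List Bool), InNP L → InP L) := by
  obtain ⟨c, hc, h⟩ := gap
  have hc' : (0 : ℝ) < c := by exact_mod_cast hc
  refine ⟨1 / (c : ℝ), by positivity, fun L hL => ?_, ?_⟩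
  · obtain ⟨f, hf, hfz⟩ := h hL
    exact ⟨fun z => bits (f z), polyTime_bits hf, fun z =>
      ⟨(f z).1, (f z).2, rfl, (hfz z).1, (hfz z).2.1, (hfz z).2.2⟩⟩
  · rintro ⟨A, hA, hAx⟩ L hL
    obtain ⟨f, hf, hfz⟩ := h hL
    have hd : Poly (fun z : List Bool => (unbits ℕ (A (bits (f z).1))).any
        fun s => decide (c * s ≤ (c + 1) * (f z).2)) := by
      refine Poly.optAny_fp (o := fun z => unbits ℕ (A (bits (f z).1)))
        (h := fun z s => decide (c * s ≤ (c + 1) * (f z).2)) ?_ ?_
      · exact poly_unbits.comp ((Pool.Agent.H569R2.poly_of_polyTime hA).comp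
          (Pool.Agent.H569R2.poly_bits.comp (Poly.fst hf)))
      · exact Poly.decide_le (Poly.mul (NPC.Poly.const _) (Poly.snd Poly.id))
          (Poly.mul (NPC.Poly.const _) (Poly.snd (hf.comp (Poly.fst Poly.id))))
    refine ⟨fun z => [(unbits ℕ (A (bits (f z).1))).any
      fun s => decide (c * s ≤ (c + 1) * (f z).2)], polyTime_of_poly hd, fun z => ?_⟩
    obtain ⟨h1, h2, h3⟩ := hfz z
    obtain ⟨s, hs, hs1, hs2⟩ := hAx _ h1
    beta_reduce
    rw [hs, unbits_bits]
    simp only [Option.any_some]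
    have e0 : (1 + 1 / (c : ℝ)) = (c + 1) / c := by field_simp
    rw [e0] at hs2 h3
    have key : z ∈ L ↔ c * s ≤ (c + 1) * (f z).2 := by
      constructor
      · intro hz
        have e1 : (s : ℝ) ≤ (c + 1) / c * (f z).2 := by
          refine hs2.trans (mul_le_mul_of_nonneg_left ?_ (by positivity))
          exact_mod_cast h2 hz
        rw [div_mul_eq_mul_div, le_div_iff₀ hc'] at e1
        have e2 : (c : ℝ) * s ≤ (c + 1) * (f z).2 := by linarith
        exact_mod_cast e2
      · intro hle
        by_contra hz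
        have e1 := h3 hz
        rw [div_mul_eq_mul_div, div_lt_iff₀ hc'] at e1
        have e2 : ((c + 1) * (f z).2 : ℝ) < c * s := by
          have e3 : (gamma (f z).1 : ℝ) ≤ s := by exact_mod_cast hs1
          have := mul_le_mul_of_nonneg_right e3 hc'.le
          linarith
        have e4 : (c + 1) * (f z).2 < c * s := by exact_mod_cast e2
        omega
    rw [key]
    simp

end Pool.Agent.Results.MP_833c47_lc.NoPTAS
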